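import Pool.Agent.Helper46.T.Final

set_option autoImplicit false

namespace Pool.Agent.Results.MP_6552bf_co.TransversalLabelled

open Filter Topology

/-- `I` is a partial transversal of the family `A`: its elements can be matched injectively to
members of the family that contain them. -/
def IsPartialTransversal {n m : ℕ} (A : Fin m → Set (Fin n)) (I : Set (Fin n)) : Prop :=
  ∃ f : I → Fin m, Function.Injective f ∧ ∀ x : I, (x : Fin n) ∈ A (f x)

/-- A matroid with ground set `Fin n` is transversal if its independent sets are exactly the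
partial transversals of some finite family of subsets. -/
def IsTransversal {n : ℕ} (M : Matroid (Fin n)) : Prop :=
  M.E = Set.univ ∧ ∃ (m : ℕ) (A : Fin m → Set (Fin n)),
    ∀ I : Set (Fin n), M.Indep I ↔ IsPartialTransversal A I

/-- The rank of a set. -/
noncomputable def rk {n : ℕ} (M : Matroid (Fin n)) (X : Set (Fin n)) : ℕ := (M.eRk X).toNat

/-- The Tutte polynomial, in the variables `X 0` (for `x`) and `X 1` (for `y`). -/
noncomputable def tutte {n : ℕ} (M : Matroid (Fin n)) : MvPolynomial (Fin 2) ℤ :=
  ∑ X : Finset (Fin n),
    (MvPolynomial.X 0 - 1) ^ (rk M Set.univ - rk M (X : Set (Fin n))) *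
      (MvPolynomial.X 1 - 1) ^ (X.card - rk M (X : Set (Fin n)))

/-- `M` is Tutte unique: every finite matroid `N` with the same Tutte polynomial is isomorphic
to `M`. -/
def TutteUnique {n : ℕ} (M : Matroid (Fin n)) : Prop :=
  ∀ (k : ℕ) (N : Matroid (Fin k)), N.E = Set.univ → tutte N = tutte M →
    ∃ e : Fin k ≃ Fin n, ∀ I : Set (Fin k), N.Indep I ↔ M.Indep (e '' I)

/-- Sanity check: the free matroid is transversal, so the denominator below is positive. -/
theorem free_transversal (n : ℕ) : IsTransversal (Matroid.freeOn (Set.univ : Set (Fin n))) := by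
  refine ⟨rfl, n, fun i => {i}, ?_⟩
  intro I
  rw [Matroid.freeOn_indep_iff]
  constructor
  · intro _
    exact ⟨fun x => x, Subtype.val_injective, fun x => rfl⟩
  · intro _
    exact Set.subset_univ I

theorem total_pos (n : ℕ) : 0 < Nat.card {M : Matroid (Fin n) // IsTransversal M} := by
  have : Finite (Matroid (Fin n)) := Helper46.T.finite_matroid
  have : Nonempty {M : Matroid (Fin n) // IsTransversal M} := ⟨⟨_, free_transversal n⟩⟩
  exact Nat.card_pos

/-- Almost no transversal matroid on `n` labelled elements is Tutte unique. -/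
theorem result : Tendsto (fun n : ℕ =>
    (Nat.card {M : Matroid (Fin n) // IsTransversal M ∧ TutteUnique M} : ℝ) /
      (Nat.card {M : Matroid (Fin n) // IsTransversal M} : ℝ)) atTop (𝓝 0) := by
  classical
  have h := Helper46.T.main_tendsto
  refine h.congr ?_
  intro n
  have h1 : Helper46.T.UU n =
      (Nat.card {M : Matroid (Fin n) // IsTransversal M ∧ TutteUnique M} : ℝ) := by
    rw [Nat.card_eq_fintype_card, Fintype.card_subtype]
    rfl
  have h2 : Helper46.T.TT n = (Nat.card {M : Matroid (Fin n) // IsTransversal M} : ℝ) := by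
    rw [Nat.card_eq_fintype_card, Fintype.card_subtype]
    rfl
  rw [h1, h2]

end Pool.Agent.Results.MP_6552bf_co.TransversalLabelled
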